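import Pool.Agent.helper77.BND.SpecF

set_option autoImplicit false

open scoped Topology Matrix
open Filter Finset

namespace Pool.Agent.BND

open Pool.Agent.CZ Pool.Agent.PV Pool.Agent.PVH

/-- evaluation at a point -/
def FSY_ev {E : Type} [TopologicalSpace E] {K : Set E} {H : Type} [AddCommGroup H] (ρ : H →+ C(K, ℝ)) (t : K) : H →+ ℝ where
  toFun x := ρ x t
  map_zero' := by
    rw [map_zero]
    rfl
  map_add' x y := by
    rw [map_add]
    rfl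

theorem FSY (hXCP : XCP_stmt) (hXIN : XIN_stmt) (hHOM : HOM_stmt) (hMIN : MIN_stmt) (hSBB : SBB_stmt) (hLCP : LCP_stmt)
    (hCOE : COE_stmt) (hBKA : BKA_stmt) (hBPA : BPA_stmt) (hTST : TST_stmt) (hJKT : JKT_stmt) : FSY_stmt := by
  intro E _ _ _ _ _ _ _ K H _ ρ g hKD hSOG B M th H' hB hT hg
  obtain ⟨hcomp, hmet⟩ := hXCP B M hB
  have hcs : CompactSpace ↥(XS B) := isCompact_iff_compactSpace.mp hcomp
  have hinf : Infinite ↥(XS B) := hXIN B M hB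
  obtain ⟨α, hal, hali⟩ := hHOM B M hB
  have hmin := hMIN B M hB α hal hali
  have hsb := hSBB B M hB α hal hali
  obtain ⟨A, iA, ι, u, hcp⟩ := hLCP ↥(XS B) α
  obtain ⟨c, hc⟩ := hCOE ↥(XS B) α A ι u hcp
  have hC : CPr B M α ι u c := ⟨hB, hal, hali, hc⟩
  obtain ⟨S, R, φ₀, hSB, hRk, hunit, hsurj, hval⟩ := hBKA H (KP K ρ) g hSOG B M th H' hT hg α A ι u c hC
  obtain ⟨ψ, hψb, hψa, hψl⟩ := hTST E K H ρ g hKD B M th H' hB hT α hal hali
  obtain ⟨τ, hτb, hτc, hτa⟩ := hJKT ↥(XS B) α A ι u c hc hmin E K ψ hψb hψa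
  refine ⟨hcs, hmet, hinf, α, hmin, hsb, A, iA, ι, u, c, hcp, hC, φ₀, AddEquiv.refl _, τ, ?_, hτb, hτa, ?_⟩
  · exact Subtype.ext hunit
  · intro t z
    obtain ⟨m, w, rfl⟩ := hsurj z
    have h1 := hBPA H (KP K ρ) g B M th H' hT α A ι u c hC S hSB (FSY_ev ρ t) (ψ t)
      (fun k F f hF hf => hψl k F hF f hf t) (τ t) (hτc t) m (R m) (hRk m) w
    rw [h1, ← hval m w]
    rfl

end Pool.Agent.BND
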