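import Pool.Agent.helper53.BND.SpecL

set_option autoImplicit false

open scoped Topology Matrix
open Filter Finset

namespace Pool.Agent.BND

open Pool.Agent.CZ Pool.Agent.PV

/-- the row of a block diagonal matrix -/
theorem LUP_bg {ι : Type} (η : ι → ℕ) (x : ι → ℕ → ℕ → ℂ) (q : ι) (Q : List ι) (j : ℕ) (hj : j < η q) :
    ∀ (P : List ι) (j' : ℕ), bg η (P ++ q :: Q) x ((P.map η).sum + j) j' =
      if (P.map η).sum ≤ j' ∧ j' < (P.map η).sum + η q then x q j (j' - (P.map η).sum) else 0 := by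
  intro P
  induction P with
  | nil =>
    intro j'
    simp only [List.nil_append, List.map_nil, List.sum_nil, zero_add, Nat.zero_le, true_and, Nat.sub_zero, bg]
    by_cases h1 : j' < η q
    · rw [if_pos ⟨hj, h1⟩, if_pos h1]
    · rw [if_neg (fun h => h1 h.2), if_neg (fun h => absurd h.1 (by omega)), if_neg h1]
  | cons a P ih =>
    intro j'
    simp only [List.cons_append, List.map_cons, List.sum_cons, bg]
    have hS : η a + (P.map η).sum + j - η a = (P.map η).sum + j := by omega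
    rw [if_neg (fun h => absurd h.1 (by omega)), hS, ih]
    by_cases h1 : η a ≤ j'
    · rw [if_pos ⟨by omega, h1⟩]
      by_cases h2 : (P.map η).sum ≤ j' - η a ∧ j' - η a < (P.map η).sum + η q
      · rw [if_pos h2, if_pos ⟨by omega, by omega⟩]
        have : j' - η a - (P.map η).sum = j' - (η a + (P.map η).sum) := by omega
        rw [this]
      · rw [if_neg h2, if_neg (fun h => h2 ⟨by omega, by omega⟩)]
    · rw [if_neg (fun h => h1 h.2), if_neg (fun h => h1 (by omega))]

theorem LUP (hWDC : WDC_stmt) (hXSU : XSU_stmt) : LUP_stmt := by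
  intro B M _ α A _ ι u c hC m a G G'' hG hG'' e' s i' j' he' hs hi' hj'
  obtain ⟨x, hx⟩ := hXSU B M hC.bs (m + 1) (emb (B.L (m + 1)) e' s i') ⟨e', s, i', he', hs, hi', rfl⟩
  have hxm : x.1 m = B.st m e' s i' := (x.2 m).2 e' s i' he' hs hi' hx
  have hhw := hC.bs.htw m e' s he' hs
  obtain ⟨P, q, Q, j, hw', hj, hij, hfw⟩ := hWDC (B.L m).h (B.w m e' s) i' (by rw [hhw]; exact hi')
  have hq := hC.bs.lett m e' s he' hs q (by rw [hw']; simp)
  have hxm' : x.1 m = emb (B.L m) q.1 q.2 j := by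
    rw [hxm]
    exact hfw Am (emb (B.L m))
  have h1 := hG'' x e' s i' he' hs hi' hx ((i' : ℤ) - j')
  have h2 := hG x q.1 q.2 j hq.1 hq.2 hj hxm' ((i' : ℤ) - j')
  have e1 : (i' : ℤ) - ((i' : ℤ) - j') = j' := by ring
  rw [e1, if_pos ⟨by omega, by exact_mod_cast hj'⟩, Int.toNat_natCast] at h1
  rw [← h1, h2, hw', hij]
  have h3 := LUP_bg (fun q : ℕ × ℝ => (B.L m).h q.1) (fun q => G q.1 q.2) q Q j hj P j'
  have h4 : hw (B.L m).h P = (P.map (fun q : ℕ × ℝ => (B.L m).h q.1)).sum := rfl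
  rw [h4, h3]
  generalize (P.map (fun q : ℕ × ℝ => (B.L m).h q.1)).sum = S
  have e2 : (j : ℤ) - (((S + j : ℕ) : ℤ) - j') = (j' : ℤ) - S := by push_cast; ring
  rw [e2]
  by_cases h5 : S ≤ j' ∧ j' < S + (B.L m).h q.1
  · rw [if_pos ⟨by omega, by omega⟩, if_pos h5]
    have : ((j' : ℤ) - S).toNat = j' - S := by omega
    rw [this]
  · rw [if_neg (fun h => h5 ⟨by omega, by omega⟩), if_neg h5]

end Pool.Agent.BND
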